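import Mathlib
import Pool.Agent.H75.LR.Stm3

/-! Project LR (helper75), module IN: the integral of an additive cocycle. -/

open scoped Topology
open Set Filter

noncomputable section

namespace Pool.Agent.H52.LR

universe v

section

variable {M : Type v} [TopologicalSpace M] [CompactSpace M]

/-- positive functionals are bounded -/
lemma abs_I_le (I : C(M, ℝ) →ₗ[ℝ] ℝ) (hI : ∀ f : C(M, ℝ), (∀ x, 0 ≤ f x) → 0 ≤ I f)
    (f : C(M, ℝ)) : |I f| ≤ I 1 * ‖f‖ := by
  have h1 : 0 ≤ I (‖f‖ • (1 : C(M, ℝ)) - f) := by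
    apply hI
    intro x
    have := (abs_le.1 ((Real.norm_eq_abs (f x)) ▸ f.norm_coe_le_norm x)).2
    simp only [ContinuousMap.sub_apply, ContinuousMap.smul_apply, ContinuousMap.one_apply,
      smul_eq_mul, mul_one]
    linarith
  have h2 : 0 ≤ I (‖f‖ • (1 : C(M, ℝ)) + f) := by
    apply hI
    intro x
    have := (abs_le.1 ((Real.norm_eq_abs (f x)) ▸ f.norm_coe_le_norm x)).1
    simp only [ContinuousMap.add_apply, ContinuousMap.smul_apply, ContinuousMap.one_apply,
      smul_eq_mul, mul_one]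
    linarith
  rw [map_sub, map_smul, smul_eq_mul] at h1
  rw [map_add, map_smul, smul_eq_mul] at h2
  rw [abs_le]
  constructor <;> linarith

/-- uniform continuity in time -/
lemma unif (Φ : M → ℝ → M) (hc : Continuous (fun q : M × ℝ => Φ q.1 q.2)) (h0 : ∀ x, Φ x 0 = x)
    (ρ : C(M, ℝ)) (ε : ℝ) (hε : 0 < ε) :
    ∃ δ : ℝ, 0 < δ ∧ ∀ t : ℝ, |t| ≤ δ → ∀ x, |ρ (Φ x t) - ρ x| ≤ ε := by
  let G0 : C(ℝ × M, ℝ) := ⟨fun q => ρ (Φ q.2 q.1), by
    have := hc.comp (continuous_snd.prodMk (continuous_fst (X := ℝ) (Y := M)))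
    exact ρ.continuous.comp this⟩
  let G : C(ℝ, C(M, ℝ)) := G0.curry
  have hG : ContinuousAt G 0 := G.continuous.continuousAt
  obtain ⟨δ, hδ, hd⟩ := Metric.continuousAt_iff.1 hG ε hε
  refine ⟨δ / 2, by positivity, fun t ht x => ?_⟩
  have h1 : dist (G t) (G 0) < ε := by
    apply hd
    rw [Real.dist_eq, sub_zero]
    linarith
  have h2 := (ContinuousMap.dist_apply_le_dist (f := G t) (g := G 0) x)
  have h3 : dist (G t x) (G 0 x) = |ρ (Φ x t) - ρ x| := by
    rw [Real.dist_eq]
    change |ρ (Φ x t) - ρ (Φ x 0)| = _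
    rw [h0]
  linarith

end

theorem inn : Pool.Agent.H75.LR.S_IN.{v} := by
  intro M _ _ _ Φ hc h0 hadd I hI hinv L hL ρ hρ k hk T
  have hL0 : ∀ x, L 0 x = 0 := by
    intro x
    have := hL 0 0 x
    rw [add_zero, h0] at this
    linarith
  have hder : ∀ x t, HasDerivAt (fun t => L t x) (ρ (Φ x t)) t := by
    intro x t
    have h1 := hρ (Φ x t)
    have h2 : (fun s => L s x) = fun s => L t x + L (s - t) (Φ x t) := by
      funext s
      rw [← hL, add_sub_cancel]
    rw [h2]
    have h3 : HasDerivAt (fun s => L (s - t) (Φ x t)) (ρ (Φ x t)) t := by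
      have h4 : HasDerivAt (fun s => L s (Φ x t)) (ρ (Φ x t)) (t - t) := by
        rw [sub_self]
        exact h1
      exact h4.comp_sub_const t t
    exact h3.const_add _
  -- uniform bound
  have hunif : ∀ ε : ℝ, 0 < ε → ∃ δ : ℝ, 0 < δ ∧ ∀ s : ℝ, |s| ≤ δ → ‖L s - s • ρ‖ ≤ ε * |s| := by
    intro ε hε
    obtain ⟨δ, hδ, hd⟩ := unif Φ hc h0 ρ ε hε
    refine ⟨δ, hδ, fun s hs => ?_⟩
    rw [ContinuousMap.norm_le _ (by positivity)]
    intro x
    have h1 := Convex.norm_image_sub_le_of_norm_hasDerivWithin_le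
      (f := fun t => L t x - t * ρ x) (f' := fun t => ρ (Φ x t) - ρ x) (C := ε)
      (s := Icc (-δ) δ) (x := 0) (y := s) ?_ ?_ (convex_Icc _ _) ?_ ?_
    · simp only [hL0, zero_mul, sub_zero] at h1
      rw [Real.norm_eq_abs s] at h1
      exact h1
    · intro t _
      have h2 := (hder x t).sub ((hasDerivAt_id t).mul_const (ρ x))
      rw [one_mul] at h2
      exact h2.hasDerivWithinAt
    · intro t ht
      rw [Real.norm_eq_abs]
      exact hd t (abs_le.2 ht) x
    · exact ⟨by linarith, hδ.le⟩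
    · exact abs_le.1 hs
  -- additivity
  obtain ⟨F, hF⟩ : ∃ F : ℝ → ℝ, F = fun s => I (L s * k) := ⟨_, rfl⟩
  have hFadd : ∀ s t, F (s + t) = F s + F t := by
    intro s t
    have hcs : Continuous (fun x => Φ x s) :=
      hc.comp (continuous_id.prodMk continuous_const)
    have h1 : L (s + t) * k = L s * k + (L t * k).comp ⟨fun x => Φ x s, hcs⟩ := by
      ext x
      simp only [ContinuousMap.mul_apply, ContinuousMap.add_apply, ContinuousMap.comp_apply,
        ContinuousMap.coe_mk]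
      rw [hL, hk]
      ring
    simp only [hF]
    rw [h1, map_add, hinv s _ (fun _ => rfl)]
  have hF0 : F 0 = 0 := by
    have := hFadd 0 0
    rw [add_zero] at this
    linarith
  have hFm : ∀ (m : ℕ) (s : ℝ), F (m * s) = m * F s := by
    intro m s
    induction m with
    | zero => simp [hF0]
    | succ m ih =>
      push_cast
      rw [add_mul, one_mul, hFadd, ih]
      ring
  have hI1 : 0 ≤ I 1 := hI 1 (fun x => by simp)
  have hfin : ∀ ε : ℝ, 0 < ε → |F T - T * I (ρ * k)| ≤ I 1 * ‖k‖ * |T| * ε := by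
    intro ε hε
    obtain ⟨δ, hδ, hd⟩ := hunif ε hε
    obtain ⟨m, hm⟩ := exists_nat_gt (|T| / δ)
    have hm0 : (0 : ℝ) < m := lt_of_le_of_lt (by positivity) hm
    have hs : |T / m| ≤ δ := by
      rw [abs_div, abs_of_pos hm0, div_le_iff₀ hm0]
      rw [div_lt_iff₀ hδ] at hm
      linarith
    have h1 := hd (T / m) hs
    have h2 : F T = m * F (T / m) := by
      rw [← hFm]
      congr 1
      field_simp
    have h3 : F (T / m) - T / m * I (ρ * k) = I ((L (T / m) - (T / m) • ρ) * k) := by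
      simp only [hF]
      rw [sub_mul, map_sub, smul_mul_assoc, map_smul, smul_eq_mul]
    have h4 := abs_I_le I hI ((L (T / m) - (T / m) • ρ) * k)
    have h5 : ‖(L (T / m) - (T / m) • ρ) * k‖ ≤ ε * |T / m| * ‖k‖ :=
      (norm_mul_le _ _).trans (mul_le_mul_of_nonneg_right h1 (norm_nonneg _))
    have h6 : F T - T * I (ρ * k) = m * (F (T / m) - T / m * I (ρ * k)) := by
      rw [h2]
      field_simp
    rw [h6, abs_mul, abs_of_pos hm0, h3]
    have h7 : |T / m| = |T| / m := by rw [abs_div, abs_of_pos hm0]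
    calc (m : ℝ) * |I ((L (T / m) - (T / m) • ρ) * k)| ≤ m * (I 1 * (ε * |T / m| * ‖k‖)) := by
          refine mul_le_mul_of_nonneg_left (h4.trans ?_) hm0.le
          exact mul_le_mul_of_nonneg_left h5 hI1
      _ = I 1 * ‖k‖ * |T| * ε := by
          rw [h7]
          field_simp
  have hzero : |F T - T * I (ρ * k)| ≤ 0 := by
    refine le_of_forall_pos_le_add fun ε hε => ?_
    have h1 := hfin (ε / (I 1 * ‖k‖ * |T| + 1)) (by positivity)
    rw [zero_add]
    refine h1.trans ?_
    rw [mul_div_assoc', div_le_iff₀ (by positivity)]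
    nlinarith [mul_nonneg (mul_nonneg hI1 (norm_nonneg k)) (abs_nonneg T)]
  have h1 := abs_nonpos_iff.1 hzero
  have h2 : F T = T * I (ρ * k) := by linarith
  rw [← h2, hF]

end Pool.Agent.H52.LR
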