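import Mathlib
import Pool.Agent.H75.LR.Stm3

/-! Project LR (helper75), module VF: vector fields from one-forms. -/

open scoped Topology ContDiff Manifold
open Set Filter Pool.Agent.H826R2.WStmt Pool.Agent.W671.RStmt
open Pool.Agent.H75.PRStmt Pool.Agent.H75.PR Pool.Agent.H75.LR

noncomputable section

set_option maxSynthPendingDepth 3

namespace Pool.Agent.H52.LR

universe u v

/-- an injective map from `E` to its dual is an isomorphism -/
lemma exists_equiv {E : Type u} [NormedAddCommGroup E] [NormedSpace ℝ E] [FiniteDimensional ℝ E]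
    (A : E →L[ℝ] E →L[ℝ] ℝ) (hA : ∀ u, A u = 0 → u = 0) :
    ∃ e : E ≃L[ℝ] (E →L[ℝ] ℝ), (e : E →L[ℝ] (E →L[ℝ] ℝ)) = A := by
  have hfin : Module.finrank ℝ E = Module.finrank ℝ (E →L[ℝ] ℝ) := by
    rw [← (LinearMap.toContinuousLinearMap (𝕜 := ℝ) (E := E) (F' := ℝ)).finrank_eq]
    exact (Subspace.dual_finrank_eq (K := ℝ) (V := E)).symm
  have hinj : Function.Injective (A : E →ₗ[ℝ] (E →L[ℝ] ℝ)) := by
    rw [← LinearMap.ker_eq_bot, LinearMap.ker_eq_bot']
    exact fun u hu => hA u hu
  refine ⟨(LinearMap.linearEquivOfInjective (A : E →ₗ[ℝ] (E →L[ℝ] ℝ)) hinj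
    hfin).toContinuousLinearEquiv, ?_⟩
  ext u w
  rfl

theorem vf : Pool.Agent.H75.LR.S_VF.{u, v} := by
  intro E _ _ _ M _ _ _ B hB hnd θ hθ
  have : CompleteSpace E := FiniteDimensional.complete ℝ E
  have hker : ∀ x, ∀ u, (show E →L[ℝ] E →L[ℝ] ℝ from B x) u = 0 → u = 0 := by
    intro x u hu
    apply hnd x u
    intro w
    have := DFunLike.congr_fun hu w
    exact this
  choose e he using fun x => exists_equiv (show E →L[ℝ] E →L[ℝ] ℝ from B x) (hker x)
  have hX : ∀ x w, bev (B x) ((e x).symm (show E →L[ℝ] ℝ from θ x)) w = ev (θ x) w := by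
    intro x w
    have h1 : (show E →L[ℝ] E →L[ℝ] ℝ from B x) ((e x).symm (show E →L[ℝ] ℝ from θ x)) =
        (show E →L[ℝ] ℝ from θ x) := by
      rw [← he x]
      exact (e x).apply_symm_apply _
    exact DFunLike.congr_fun h1 w
  refine ⟨fun x => (e x).symm (show E →L[ℝ] ℝ from θ x), ?_, hX⟩
  intro p
  obtain ⟨X, hXd⟩ : ∃ X : M → E, X = fun x => (e x).symm (show E →L[ℝ] ℝ from θ x) := ⟨_, rfl⟩
  rw [← hXd]
  have hX' : ∀ x w, bev (B x) (X x) w = ev (θ x) w := by
    intro x w
    rw [hXd]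
    exact hX x w
  have key : ∀ y ∈ (ch E p).target, cBil B p y (cVec X p y) = cCov θ p y := by
    intro y hy
    ext w
    rw [cBil_apply, cCov_apply]
    have h1 := D_symm_chart ((ch E p).map_target hy) (X ((ch E p).symm y))
    rw [(ch E p).right_inv hy] at h1
    unfold cVec
    rw [h1]
    exact hX' _ _
  have hinj : ∀ y ∈ (ch E p).target, ∀ u, cBil B p y u = 0 → u = 0 := by
    intro y hy u hu
    apply Dsy_injective hy
    apply hnd ((ch E p).symm y)
    intro w
    have h1 := D_symm_chart ((ch E p).map_target hy) w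
    rw [(ch E p).right_inv hy] at h1
    rw [← h1, ← cBil_apply, hu]
    rfl
  have hval : ∀ y ∈ (ch E p).target,
      cVec X p y = ContinuousLinearMap.inverse (cBil B p y) (cCov θ p y) := by
    intro y hy
    obtain ⟨f, hf⟩ := exists_equiv (cBil B p y) (hinj y hy)
    rw [← key y hy, ← hf, ContinuousLinearMap.inverse_equiv]
    exact (f.symm_apply_apply _).symm
  have hsm : ContDiffOn ℝ ∞ (fun y => ContinuousLinearMap.inverse (cBil B p y) (cCov θ p y))
      (ch E p).target := by
    intro y hy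
    apply ContDiffAt.contDiffWithinAt
    have hn := (isOpen_extChartAt_target p).mem_nhds hy
    have h1 : ContDiffAt ℝ ∞ (cBil B p) y := (hB p).contDiffAt hn
    have h2 : ContDiffAt ℝ ∞ (cCov θ p) y := (hθ p).contDiffAt hn
    obtain ⟨f, hf⟩ := exists_equiv (cBil B p y) (hinj y hy)
    have h3 : ContDiffAt ℝ ∞ ContinuousLinearMap.inverse (cBil B p y) := by
      rw [← hf]
      exact contDiffAt_map_inverse f
    exact (h3.comp y h1).clm_apply h2
  exact hsm.congr hval

end Pool.Agent.H52.LR
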